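import Mathlib

/-!
# The rational roots of all Stern polynomials

The Stern polynomials are `B 0 = 0`, `B 1 = 1`, `B (2 n) = t B n`, `B (2 n + 1) = B n + B (n + 1)`.
We show that the set of the rational roots of all the polynomials `B n`, `n ≥ 1`, is exactly
`{-1, -1/2, -1/3, 0}`.

Proof. For odd `n` we have `B n 0 = 1` and the coefficients are nonnegative, so a rational root is of
the form `-1 / m` with a positive integer `m`. If `-1/4 ≤ t ≤ 0` then for every odd `n` the value
`B n t` is positive, and the values at the two even neighbours of `n` are at most half of it in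
absolute value: if `o`, `e` are the odd and the even one of `k`, `k + 1` then
`B (2 k + 1) = B o + B e ≥ B o / 2` and `|t B k|, |t B (k + 1)| ≤ B o / 4`. So `m ≤ 3`. The same
argument shows that no `B n` has a real root in `[-1/4, 0)`.
-/

namespace Pool.Agent.L5helper12.Moved.SternRationalRoots

open Polynomial

/-- The `n`-th Stern polynomial, by the recursion `B 0 = 0`, `B 1 = 1`, `B (2 n) = t B n`,
`B (2 n + 1) = B n + B (n + 1)` for `n ≥ 1`. -/
noncomputable def stern : ℕ → ℤ[X]
  | 0 => 0
  | 1 => 1
  | (n + 2) =>
    if n % 2 = 0 then X * stern (n / 2 + 1) else stern (n / 2 + 1) + stern (n / 2 + 2)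
  termination_by n => n
  decreasing_by all_goals omega

theorem stern_zero : stern 0 = 0 := by rw [stern]

theorem stern_one : stern 1 = 1 := by rw [stern]

theorem stern_even (n : ℕ) : stern (2 * n) = X * stern n := by
  rcases n with _ | n
  · simp [stern_zero]
  · rw [show 2 * (n + 1) = 2 * n + 2 by ring, stern, if_pos (by omega),
      show 2 * n / 2 + 1 = n + 1 by omega]

theorem stern_odd (n : ℕ) (hn : 1 ≤ n) : stern (2 * n + 1) = stern n + stern (n + 1) := by
  obtain ⟨m, rfl⟩ : ∃ m, n = m + 1 := ⟨n - 1, by omega⟩
  rw [show 2 * (m + 1) + 1 = (2 * m + 1) + 2 by ring, stern, if_neg (by omega),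
    show (2 * m + 1) / 2 + 1 = m + 1 by omega, show (2 * m + 1) / 2 + 2 = m + 1 + 1 by omega]

theorem stern_odd' (n : ℕ) : stern (2 * n + 1) = stern n + stern (n + 1) := by
  rcases n with _ | n
  · simp [stern_zero, stern_one]
  · exact stern_odd _ (by omega)

/-- The main estimate. -/
theorem key {F : Type*} [Field F] [LinearOrder F] [IsStrictOrderedRing F] (t : F)
    (h0 : -(1 / 4) ≤ t) (h1 : t ≤ 0) :
    ∀ k : ℕ, (Even k → 0 < aeval t (stern (k + 1)) ∧
        |aeval t (stern k)| ≤ aeval t (stern (k + 1)) / 2) ∧
      (Odd k → 0 < aeval t (stern k) ∧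
        |aeval t (stern (k + 1))| ≤ aeval t (stern k) / 2) := by
  intro k
  induction k using Nat.strong_induction_on with
  | _ k ih =>
    rcases Nat.eq_zero_or_pos k with rfl | hk
    · simp [stern_zero, stern_one]
    rcases Nat.even_or_odd' k with ⟨j, rfl | rfl⟩
    · have hj := ih j (by omega)
      refine ⟨fun _ => ?_, fun h => absurd h (by simp)⟩
      rw [stern_odd', stern_even]
      simp only [map_add, map_mul, aeval_X]
      rcases Nat.even_or_odd j with h | h
      · obtain ⟨a, b⟩ := hj.1 h
        rw [abs_le] at b
        constructor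
        · linarith
        · rw [abs_le]; constructor <;> nlinarith
      · obtain ⟨a, b⟩ := hj.2 h
        rw [abs_le] at b
        constructor
        · linarith
        · rw [abs_le]; constructor <;> nlinarith
    · have hj := ih j (by omega)
      refine ⟨fun h => absurd h (by simp), fun _ => ?_⟩
      rw [stern_odd', show 2 * j + 1 + 1 = 2 * (j + 1) by ring, stern_even]
      simp only [map_add, map_mul, aeval_X]
      rcases Nat.even_or_odd j with h | h
      · obtain ⟨a, b⟩ := hj.1 h
        rw [abs_le] at b
        constructor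
        · linarith
        · rw [abs_le]; constructor <;> nlinarith
      · obtain ⟨a, b⟩ := hj.2 h
        rw [abs_le] at b
        constructor
        · linarith
        · rw [abs_le]; constructor <;> nlinarith

theorem pos_of_pos {F : Type*} [Field F] [LinearOrder F] [IsStrictOrderedRing F] (t : F)
    (h0 : 0 < t) : ∀ k : ℕ, 1 ≤ k → 0 < aeval t (stern k) := by
  intro k
  induction k using Nat.strong_induction_on with
  | _ k ih =>
    intro hk
    rcases Nat.even_or_odd' k with ⟨j, rfl | rfl⟩
    · rw [stern_even, map_mul, aeval_X]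
      exact mul_pos h0 (ih j (by omega) (by omega))
    · rcases Nat.eq_zero_or_pos j with rfl | hj
      · simp [stern_one]
      · rw [stern_odd', map_add]
        exact add_pos (ih j (by omega) hj) (ih (j + 1) (by omega) (by omega))

theorem coeff_zero (k : ℕ) : (stern (2 * k)).coeff 0 = 0 ∧ (stern (2 * k + 1)).coeff 0 = 1 := by
  have h : ∀ n : ℕ, (Even n → (stern n).coeff 0 = 0) ∧ (Odd n → (stern n).coeff 0 = 1) := by
    intro n
    induction n using Nat.strong_induction_on with
    | _ n ih =>
      rcases Nat.even_or_odd' n with ⟨j, rfl | rfl⟩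
      · refine ⟨fun _ => ?_, fun h => absurd h (by simp)⟩
        rw [stern_even]; simp
      · refine ⟨fun h => absurd h (by simp), fun _ => ?_⟩
        rcases Nat.eq_zero_or_pos j with rfl | hj
        · simp [stern_one]
        · rw [stern_odd', coeff_add]
          rcases Nat.even_or_odd j with h | h
          · rw [(ih j (by omega)).1 h, (ih (j + 1) (by omega)).2 h.add_one]; norm_num
          · rw [(ih j (by omega)).2 h, (ih (j + 1) (by omega)).1 h.add_one]; norm_num
  exact ⟨(h _).1 (by simp), (h _).2 (by simp)⟩

theorem ne_zero_of_odd (k : ℕ) : stern (2 * k + 1) ≠ 0 := by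
  intro h
  have := (coeff_zero k).2
  rw [h] at this
  simp at this

/-- A rational root of a Stern polynomial. -/
theorem root_mem (a : ℚ) : ∀ n : ℕ, 1 ≤ n → aeval a (stern n) = 0 →
    a = -1 ∨ a = -1 / 2 ∨ a = -1 / 3 ∨ a = 0 := by
  intro n
  induction n using Nat.strong_induction_on with
  | _ n ih =>
    intro hn h
    rcases Nat.even_or_odd' n with ⟨j, rfl | rfl⟩
    · rw [stern_even, map_mul, aeval_X] at h
      rcases mul_eq_zero.1 h with h | h
      · exact Or.inr (Or.inr (Or.inr h))
      · exact ih j (by omega) (by omega) h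
    · have h1 := num_dvd_of_is_root (A := ℤ) (K := ℚ) h
      rw [(coeff_zero j).2] at h1
      have h2 : IsUnit (IsFractionRing.num ℤ a) := isUnit_of_dvd_one h1
      obtain ⟨v, hv0, hv⟩ : ∃ v : ℤ, v ≠ 0 ∧ a = 1 / v := by
        have h3 := IsFractionRing.mk'_num_den' ℤ a
        have h4 : (IsFractionRing.den ℤ a : ℤ) ≠ 0 := nonZeroDivisors.coe_ne_zero _
        rcases Int.isUnit_iff.1 h2 with h5 | h5
        · refine ⟨IsFractionRing.den ℤ a, h4, ?_⟩
          rw [h5] at h3
          simpa using h3.symm
        · refine ⟨-(IsFractionRing.den ℤ a : ℤ), neg_ne_zero.2 h4, ?_⟩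
          rw [h5] at h3
          have h6 : a = -1 / ((IsFractionRing.den ℤ a : ℤ) : ℚ) := by simpa using h3.symm
          rw [Int.cast_neg, div_neg, ← neg_div]
          exact h6
      have ha0 : a < 0 := by
        rcases lt_trichotomy a 0 with h5 | h5 | h5
        · exact h5
        · exfalso
          rw [hv] at h5
          have : (v : ℚ) ≠ 0 := by exact_mod_cast hv0
          field_simp at h5
          norm_num at h5
        · exact absurd h (pos_of_pos a h5 _ hn).ne'
      have hvneg : v < 0 := by
        by_contra hcon
        have : (0 : ℚ) ≤ v := by exact_mod_cast (not_lt.1 hcon)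
        have : 0 ≤ a := by rw [hv]; positivity
        linarith
      have hv4 : -4 < v := by
        by_contra hcon
        have h5 : (v : ℚ) ≤ -4 := by exact_mod_cast (not_lt.1 hcon)
        have h6 : -(1 / 4) ≤ a := by
          have h8 : (v : ℚ) < 0 := by linarith
          rw [hv, le_div_iff_of_neg h8]
          linarith
        have h7 := ((key a h6 ha0.le (2 * j + 1)).2 (by simp)).1
        exact h7.ne' h
      rcases (by omega : v = -1 ∨ v = -2 ∨ v = -3) with rfl | rfl | rfl
      · left; rw [hv]; norm_num
      · right; left; rw [hv]; norm_num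
      · right; right; left; rw [hv]; norm_num

theorem stern_two : stern 2 = X := by
  rw [show 2 = 2 * 1 by ring, stern_even, stern_one, mul_one]

theorem stern_three : stern 3 = X + 1 := by
  rw [show 3 = 2 * 1 + 1 by ring, stern_odd', stern_one, stern_two, add_comm]

theorem stern_five : stern 5 = 2 * X + 1 := by
  rw [show 5 = 2 * 2 + 1 by ring, stern_odd', stern_two, stern_three]; ring

theorem stern_ten : stern 10 = X * (2 * X + 1) := by
  rw [show 10 = 2 * 5 by ring, stern_even, stern_five]

theorem stern_eleven : stern 11 = X ^ 2 + 3 * X + 1 := by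
  rw [show 11 = 2 * 5 + 1 by ring, stern_odd', stern_five, show 5 + 1 = 2 * 3 by ring, stern_even,
    stern_three]
  ring

theorem stern_twentyone : stern 21 = (3 * X + 1) * (X + 1) := by
  rw [show 21 = 2 * 10 + 1 by ring, stern_odd', stern_ten, stern_eleven]
  ring

/-- **The set of the rational roots of the Stern polynomials** `B n`, `n ≥ 1`, is exactly
`{-1, -1/2, -1/3, 0}`. -/
theorem result : {a : ℚ | ∃ n : ℕ, 1 ≤ n ∧ aeval a (stern n) = 0} = {-1, -1 / 2, -1 / 3, 0} := by
  ext a
  simp only [Set.mem_ofPred_eq, Set.mem_insert_iff, Set.mem_singleton_iff]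
  constructor
  · rintro ⟨n, hn, h⟩
    exact root_mem a n hn h
  · rintro (rfl | rfl | rfl | rfl)
    · exact ⟨3, by norm_num, by rw [stern_three]; simp⟩
    · refine ⟨5, by norm_num, ?_⟩
      rw [stern_five, map_add, map_mul, map_one, map_ofNat, aeval_X]
      norm_num
    · refine ⟨21, by norm_num, ?_⟩
      rw [stern_twentyone, map_mul, map_add, map_mul, map_one, map_ofNat, aeval_X]
      norm_num
    · exact ⟨2, by norm_num, by rw [stern_two]; simp⟩

end Pool.Agent.L5helper12.Moved.SternRationalRoots
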